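import Mathlib

set_option autoImplicit false

namespace Pool.Agent.Results.MP_d39bc3_gt.ProductDomain

open Set MeasureTheory Metric Module Filter
open scoped MeasureTheory Topology ContDiff

/-- Euclidean space of dimension `n`. -/
abbrev E (n : ℕ) := EuclideanSpace ℝ (Fin n)

/-- The boundary of `Ω` is a smooth hypersurface with `Ω` on one side: near each boundary point
there is a smooth `F` with nonzero derivative on the boundary such that locally `Ω = {F > 0}` and
`∂Ω = {F = 0}`. -/
def SmoothBoundary {m : ℕ} (Ω : Set (E m)) : Prop :=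
  ∀ x ∈ frontier Ω, ∃ U : Set (E m), IsOpen U ∧ x ∈ U ∧ ∃ F : E m → ℝ, ContDiffOn ℝ ∞ F U ∧
    (∀ y ∈ U, y ∈ frontier Ω → fderiv ℝ F y ≠ 0) ∧
    (∀ y ∈ U, y ∈ Ω ↔ 0 < F y) ∧ (∀ y ∈ U, y ∈ frontier Ω ↔ F y = 0)

/-- The section of `Ω` by the translate of `M` through `x`. -/
def sec {m : ℕ} (M : Submodule ℝ (E m)) (x : E m) (Ω : Set (E m)) : Set (E m) :=
  {y | y - x ∈ M ∧ y ∈ Ω}

/-- The centroid of `S` with respect to `k`-dimensional Hausdorff measure. -/
noncomputable def cen {m : ℕ} (k : ℕ) (S : Set (E m)) : E m :=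
  (μHE[k] S).toReal⁻¹ • ∫ x in S, x ∂μHE[k]

/-- The section-centroid collinearity property in `E (n + 1)`. -/
def SCCP (n : ℕ) (Ω : Set (E (n + 1))) : Prop :=
  ∀ M : Submodule ℝ (E (n + 1)), finrank ℝ M = n → (∀ x, Bornology.IsBounded (sec M x Ω)) →
    ∃ p d : E (n + 1), d ≠ 0 ∧ ∀ x, (sec M x (interior Ω)).Nonempty →
      ∃ t : ℝ, cen n (sec M x Ω) = p + t • d

/-- `S` lies on a quadric: some polynomial of degree at most two, not all of whose coefficients
vanish, is zero on `S`. -/
def LiesOnQuadric {m : ℕ} (S : Set (E m)) : Prop :=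
  ∃ (b : Matrix (Fin m) (Fin m) ℝ) (l : Fin m → ℝ) (c : ℝ), b.IsSymm ∧
    ¬ (b = 0 ∧ l = 0 ∧ c = 0) ∧
    ∀ x ∈ S, ∑ i, ∑ j, b i j * x i * x j + ∑ i, l i * x i + c = 0

/-- The domain `{x : x_i > 0, ∏ x_i > 1}`. -/
def Om (m : ℕ) : Set (E m) := {x | (∀ i, 0 < x i) ∧ 1 < ∏ i, x i}

/-- Its closure. -/
def OmBar (m : ℕ) : Set (E m) := {x | (∀ i, 0 < x i) ∧ 1 ≤ ∏ i, x i}

lemma Om_open (m : ℕ) : IsOpen (Om m) := by
  have h : Om m = (⋂ i, {x : E m | 0 < x i}) ∩ {x | 1 < ∏ i, x i} := by
    ext x; simp [Om]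
  rw [h]
  exact (isOpen_iInter_of_finite fun i => isOpen_lt continuous_const (by fun_prop)).inter
    (isOpen_lt continuous_const (by fun_prop))

lemma OmBar_closed (m : ℕ) : IsClosed (OmBar m) := by
  have h : OmBar m = (⋂ i, {x : E m | 0 ≤ x i}) ∩ {x | 1 ≤ ∏ i, x i} := by
    ext x
    simp only [OmBar, mem_ofPred_eq, mem_inter_iff, mem_iInter]
    constructor
    · rintro ⟨h1, h2⟩; exact ⟨fun i => (h1 i).le, h2⟩
    · rintro ⟨h1, h2⟩
      refine ⟨fun i => lt_of_le_of_ne (h1 i) fun h => ?_, h2⟩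
      have : ∏ i, x i = 0 := Finset.prod_eq_zero (Finset.mem_univ i) h.symm
      linarith
  rw [h]
  exact (isClosed_iInter fun i => isClosed_le continuous_const (by fun_prop)).inter
    (isClosed_le continuous_const (by fun_prop))

lemma closure_Om (m : ℕ) (hm : m ≠ 0) : closure (Om m) = OmBar m := by
  apply Subset.antisymm
  · apply closure_minimal _ (OmBar_closed m)
    rintro x ⟨h1, h2⟩
    exact ⟨h1, h2.le⟩
  · rintro x ⟨h1, h2⟩
    have ht : Tendsto (fun t : ℝ => t • x) (𝓝[>] 1) (𝓝 ((1 : ℝ) • x)) :=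
      ((by fun_prop : Continuous fun t : ℝ => t • x).tendsto 1).mono_left nhdsWithin_le_nhds
    rw [one_smul] at ht
    apply mem_closure_of_tendsto ht
    filter_upwards [self_mem_nhdsWithin] with t ht1
    have ht1' : 1 < t := ht1
    have ht0 : 0 < t := by linarith
    refine ⟨fun i => ?_, ?_⟩
    · simp only [PiLp.smul_apply, smul_eq_mul]
      exact mul_pos ht0 (h1 i)
    · simp only [PiLp.smul_apply, smul_eq_mul, Finset.prod_mul_distrib, Finset.prod_const,
        Finset.card_univ, Fintype.card_fin]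
      have h3 : 1 < t ^ m := one_lt_pow₀ ht1' hm
      nlinarith

lemma frontier_Om (m : ℕ) (hm : m ≠ 0) :
    frontier (Om m) = {x | (∀ i, 0 < x i) ∧ ∏ i, x i = 1} := by
  rw [frontier, closure_Om m hm, (Om_open m).interior_eq]
  ext x
  constructor
  · rintro ⟨⟨h1, h2⟩, h3⟩
    refine ⟨h1, le_antisymm ?_ h2⟩
    by_contra h4
    push Not at h4
    exact h3 ⟨h1, h4⟩
  · rintro ⟨h1, h2⟩
    exact ⟨⟨h1, h2.ge⟩, fun h3 => by have := h3.2; linarith⟩

lemma strict_key {m : ℕ} {x y : E m} (hx : x ∈ OmBar m) (hy : y ∈ OmBar m) (hxy : x ≠ y)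
    {a b : ℝ} (ha : 0 < a) (hb : 0 < b) (hab : a + b = 1) : a • x + b • y ∈ Om m := by
  obtain ⟨hx1, hx2⟩ := hx
  obtain ⟨hy1, hy2⟩ := hy
  have hpos : ∀ i, 0 < (a • x + b • y) i := by
    intro i
    simp only [PiLp.add_apply, PiLp.smul_apply, smul_eq_mul]
    have := hx1 i
    have := hy1 i
    positivity
  refine ⟨hpos, ?_⟩
  by_contra hcon
  push Not at hcon
  have hprod : 0 < ∏ i, (a • x + b • y) i := Finset.prod_pos fun i _ => hpos i
  have h1 : Real.log (∏ i, (a • x + b • y) i) ≤ 0 := Real.log_nonpos hprod.le hcon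
  rw [Real.log_prod (fun i _ => (hpos i).ne')] at h1
  have hX : 0 ≤ ∑ i, Real.log (x i) := by
    rw [← Real.log_prod (fun i _ => (hx1 i).ne')]
    exact Real.log_nonneg hx2
  have hY : 0 ≤ ∑ i, Real.log (y i) := by
    rw [← Real.log_prod (fun i _ => (hy1 i).ne')]
    exact Real.log_nonneg hy2
  obtain ⟨j, hj⟩ : ∃ j, x j ≠ y j := by
    by_contra h
    push Not at h
    exact hxy (by ext i; exact h i)
  have hlt : ∑ i, (a * Real.log (x i) + b * Real.log (y i)) <
      ∑ i, Real.log ((a • x + b • y) i) := by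
    apply Finset.sum_lt_sum
    · intro i _
      have h2 := (strictConcaveOn_log_Ioi.concaveOn).2 (x := x i) (y := y i) (hx1 i) (hy1 i)
        ha.le hb.le hab
      simpa using h2
    · refine ⟨j, Finset.mem_univ j, ?_⟩
      have h2 := strictConcaveOn_log_Ioi.2 (x := x j) (y := y j) (hx1 j) (hy1 j) hj ha hb hab
      simpa using h2
  rw [Finset.sum_add_distrib, ← Finset.mul_sum, ← Finset.mul_sum] at hlt
  have h3 : 0 ≤ a * ∑ i, Real.log (x i) := mul_nonneg ha.le hX
  have h4 : 0 ≤ b * ∑ i, Real.log (y i) := mul_nonneg hb.le hY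
  linarith

lemma strictConvex_closure (m : ℕ) (hm : m ≠ 0) : StrictConvex ℝ (closure (Om m)) := by
  rw [closure_Om m hm]
  intro x hx y hy hxy a b ha hb hab
  have h1 : Om m ⊆ interior (OmBar m) := interior_maximal (fun z hz => ⟨hz.1, hz.2.le⟩) (Om_open m)
  exact h1 (strict_key hx hy hxy ha hb hab)

lemma Om_convex (m : ℕ) : Convex ℝ (Om m) := by
  intro x hx y hy a b ha hb hab
  rcases eq_or_ne x y with h | h
  · subst h
    rw [← add_smul, hab, one_smul]; exact hx
  · rcases eq_or_lt_of_le ha with h1 | h1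
    · rw [← h1] at hab ⊢
      rw [zero_add] at hab
      rw [zero_smul, zero_add, hab, one_smul]; exact hy
    · rcases eq_or_lt_of_le hb with h2 | h2
      · rw [← h2] at hab ⊢
        rw [add_zero] at hab
        rw [zero_smul, add_zero, hab, one_smul]; exact hx
      · exact strict_key ⟨hx.1, hx.2.le⟩ ⟨hy.1, hy.2.le⟩ h h1 h2 hab

lemma Om_nonempty (m : ℕ) (hm : m ≠ 0) : (Om m).Nonempty := by
  refine ⟨WithLp.toLp 2 fun _ => 2, fun i => by simp, ?_⟩
  simp only [Finset.prod_const, Finset.card_univ, Fintype.card_fin]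
  exact one_lt_pow₀ (by norm_num) hm

lemma smooth (m : ℕ) (hm : m ≠ 0) : SmoothBoundary (Om m) := by
  intro x hx
  rw [frontier_Om m hm] at hx ⊢
  refine ⟨{y | ∀ i, 0 < y i}, ?_, hx.1, fun y => ∏ i, y i - 1, ?_, ?_, ?_, ?_⟩
  · have h : {y : E m | ∀ i, 0 < y i} = ⋂ i, {y : E m | 0 < y i} := by ext; simp
    rw [h]
    exact isOpen_iInter_of_finite fun i => isOpen_lt continuous_const (by fun_prop)
  · apply ContDiff.contDiffOn
    fun_prop
  · rintro y hy hyf hzero
    have hd : DifferentiableAt ℝ (fun y : E m => ∏ i, y i - 1) y := by fun_prop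
    -- derivative along y itself
    have h1 : HasDerivAt (fun t : ℝ => (fun y : E m => ∏ i, y i - 1) (t • y))
        (fderiv ℝ (fun y : E m => ∏ i, y i - 1) y y) 1 := by
      have hf : HasFDerivAt (fun y : E m => ∏ i, y i - 1)
          (fderiv ℝ (fun y : E m => ∏ i, y i - 1) y) ((1 : ℝ) • y) := by
        rw [one_smul]; exact hd.hasFDerivAt
      have hg : HasDerivAt (fun t : ℝ => t • y) ((1 : ℝ) • y) 1 :=
        (hasDerivAt_id (1 : ℝ)).smul_const y
      rw [one_smul] at hg
      exact hf.comp_hasDerivAt 1 hg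
    rw [hzero] at h1
    have h2 : (fun t : ℝ => (fun y : E m => ∏ i, y i - 1) (t • y)) = fun t => t ^ m - 1 := by
      funext t
      simp only [PiLp.smul_apply, smul_eq_mul, Finset.prod_mul_distrib, Finset.prod_const,
        Finset.card_univ, Fintype.card_fin]
      rw [hyf.2, mul_one]
    rw [h2] at h1
    have h3 : HasDerivAt (fun t : ℝ => t ^ m - 1) (m * 1 ^ (m - 1)) 1 := by
      simpa using (hasDerivAt_pow m (1 : ℝ)).sub_const 1
    have h4 := h1.unique h3
    simp at h4
    exact hm (by exact_mod_cast h4.symm)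
  · intro y hy
    constructor
    · rintro ⟨-, h⟩; simpa using h
    · intro h; exact ⟨hy, by simpa using h⟩
  · intro y hy
    constructor
    · rintro ⟨-, h⟩; simp [h]
    · intro h; exact ⟨hy, by linarith⟩

/-- five values determine the coefficients -/
lemma five (A B C D F : ℝ) (h : ∀ s : ℝ, 0 < s → A * s ^ 2 + B * s + C + D / s + F / s ^ 2 = 0) :
    A = 0 ∧ B = 0 := by
  have h1 := h 1 (by norm_num)
  have h2 := h 2 (by norm_num)
  have h3 := h 3 (by norm_num)
  have h4 := h 4 (by norm_num)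
  have h5 := h 5 (by norm_num)
  constructor <;> linarith

open Matrix in
lemma quadric_step {m : ℕ} (b : Matrix (Fin m) (Fin m) ℝ) (l : Fin m → ℝ) (c : ℝ)
    (hb : b.IsSymm)
    (hq : ∀ x : Fin m → ℝ, (∀ i, 0 < x i) → ∏ i, x i = 1 → x ⬝ᵥ (b *ᵥ x) + l ⬝ᵥ x + c = 0)
    (i j : Fin m) (hij : i ≠ j) (w : Fin m → ℝ) (hw : ∀ k, 0 < w k) :
    b i i = 0 ∧ 2 * (b *ᵥ (Function.update (Function.update w i 0) j 0)) i + l i = 0 := by
  set w' := Function.update (Function.update w i 0) j 0 with hw'
  set P := ∏ k ∈ (Finset.univ \ {j}) \ {i}, w k with hP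
  have hP0 : 0 < P := Finset.prod_pos fun k _ => hw k
  set r := P⁻¹ with hr
  have hr0 : 0 < r := inv_pos.mpr hP0
  set u1 : Fin m → ℝ := Pi.single i 1 with hu1
  set u2 : Fin m → ℝ := Pi.single j 1 with hu2
  have key : ∀ s : ℝ, 0 < s →
      (b i i) * s ^ 2 + (2 * (b *ᵥ w') i + l i) * s +
        (w' ⬝ᵥ (b *ᵥ w') + l ⬝ᵥ w' + c + 2 * r * b i j) + (r * (2 * (b *ᵥ w') j + l j)) / s +
        (r ^ 2 * b j j) / s ^ 2 = 0 := by
    intro s hs
    set x : Fin m → ℝ := Function.update (Function.update w i s) j (r / s) with hx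
    have hxpos : ∀ k, 0 < x k := by
      intro k
      rw [hx]
      by_cases h1 : k = j
      · subst h1; simp; positivity
      · rw [Function.update_of_ne h1]
        by_cases h2 : k = i
        · subst h2; simp; exact hs
        · rw [Function.update_of_ne h2]; exact hw k
    have hxprod : ∏ k, x k = 1 := by
      rw [hx, Finset.prod_update_of_mem (Finset.mem_univ j), Finset.prod_update_of_mem (by
        simp [hij]), ← hP, hr]
      field_simp
    have hxdec : x = s • u1 + (r / s) • u2 + w' := by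
      funext k
      simp only [Pi.add_apply, Pi.smul_apply, smul_eq_mul, hu1, hu2, hx, hw']
      by_cases h1 : k = j
      · subst h1
        simp [hij.symm]
      · rw [Function.update_of_ne h1, Function.update_of_ne h1]
        by_cases h2 : k = i
        · subst h2
          simp [hij]
        · rw [Function.update_of_ne h2, Function.update_of_ne h2]
          simp [h1, h2]
    have h := hq x hxpos hxprod
    have hsym : ∀ p q : Fin m → ℝ, p ⬝ᵥ (b *ᵥ q) = q ⬝ᵥ (b *ᵥ p) := by
      intro p q
      rw [dotProduct_mulVec, ← mulVec_transpose, hb.eq, dotProduct_comm]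
    rw [hxdec] at h
    simp only [mulVec_add, mulVec_smul, dotProduct_add, add_dotProduct, dotProduct_smul,
      smul_dotProduct, smul_eq_mul] at h
    rw [hsym w' u1, hsym w' u2, hsym u2 u1] at h
    have e1 : ∀ v : Fin m → ℝ, u1 ⬝ᵥ v = v i := fun v => by simp [hu1]
    have e2 : ∀ v : Fin m → ℝ, u2 ⬝ᵥ v = v j := fun v => by simp [hu2]
    have e3 : (b *ᵥ u1) i = b i i := by simp [hu1]
    have e4 : (b *ᵥ u2) j = b j j := by simp [hu2]
    have e5 : (b *ᵥ u2) i = b i j := by simp [hu2]
    have e6 : l ⬝ᵥ u1 = l i := by simp [hu1]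
    have e7 : l ⬝ᵥ u2 = l j := by simp [hu2]
    rw [e1, e1, e1, e2, e2, e3, e4, e5, e6, e7] at h
    rw [← h]
    field_simp
    ring
  exact five _ _ _ _ _ key

open Matrix in
lemma not_quadric (m : ℕ) (hm : 3 ≤ m) : ¬ LiesOnQuadric (frontier (Om m)) := by
  rintro ⟨b, l, c, hb, hne, hq⟩
  apply hne
  rw [frontier_Om m (by omega)] at hq
  have hq' : ∀ x : Fin m → ℝ, (∀ i, 0 < x i) → ∏ i, x i = 1 →
      x ⬝ᵥ (b *ᵥ x) + l ⬝ᵥ x + c = 0 := by
    intro x h1 h2
    have h := hq (WithLp.toLp 2 x) ⟨h1, h2⟩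
    rw [← h]
    congr 2
    simp only [dotProduct, mulVec, Finset.mul_sum]
    apply Finset.sum_congr rfl
    intro i _
    apply Finset.sum_congr rfl
    intro j _
    ring
  have third : ∀ i k : Fin m, ∃ j, j ≠ i ∧ j ≠ k := by
    intro i k
    by_contra hcon
    push Not at hcon
    have h1 : (Finset.univ : Finset (Fin m)) ⊆ {i, k} := by
      intro j _
      by_cases h : j = i
      · simp [h]
      · simp [hcon j h]
    have h2 := Finset.card_le_card h1
    have h3 : ({i, k} : Finset (Fin m)).card ≤ 2 := Finset.card_le_two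
    simp at h2
    omega
  have hboff : ∀ i k : Fin m, i ≠ k → b i k = 0 := by
    intro i k hik
    obtain ⟨j, hji, hjk⟩ := third i k
    have h1 := (quadric_step b l c hb hq' i j hji.symm (fun _ => 1) (fun _ => one_pos)).2
    have h2 := (quadric_step b l c hb hq' i j hji.symm (fun t => if t = k then 2 else 1)
      (fun t => by split_ifs <;> norm_num)).2
    have h3 : Function.update (Function.update (fun t => if t = k then (2 : ℝ) else 1) i 0) j 0 =
        Function.update (Function.update (fun _ => (1 : ℝ)) i 0) j 0 + Pi.single k 1 := by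
      funext t
      simp only [Pi.add_apply]
      by_cases g1 : t = j
      · subst g1
        simp [hjk]
      · rw [Function.update_of_ne g1, Function.update_of_ne g1]
        by_cases g2 : t = i
        · subst g2
          simp [hik]
        · rw [Function.update_of_ne g2, Function.update_of_ne g2]
          by_cases g3 : t = k
          · subst g3; simp; norm_num
          · simp [g3]
    rw [h3, mulVec_add, Pi.add_apply] at h2
    have h4 : (b *ᵥ (Pi.single k (1 : ℝ) : Fin m → ℝ)) i = b i k := by simp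
    rw [h4] at h2
    linarith
  have hb0 : b = 0 := by
    ext i k
    by_cases h : i = k
    · subst h
      obtain ⟨j, hji, -⟩ := third i i
      exact (quadric_step b l c hb hq' i j hji.symm (fun _ => 1) (fun _ => one_pos)).1
    · exact hboff i k h
  have hl0 : l = 0 := by
    funext i
    obtain ⟨j, hji, -⟩ := third i i
    have h1 := (quadric_step b l c hb hq' i j hji.symm (fun _ => 1) (fun _ => one_pos)).2
    rw [hb0] at h1
    simpa using h1
  refine ⟨hb0, hl0, ?_⟩
  have h1 := hq' (fun _ => 1) (fun _ => one_pos) (by simp)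
  rw [hb0, hl0] at h1
  simpa using h1

/-- the scaled coordinate swap attached to the direction `u` -/
noncomputable def swapMap {m : ℕ} (u : E m) (σ : Equiv.Perm (Fin m)) : E m →ₗ[ℝ] E m where
  toFun x := WithLp.toLp 2 fun k => u (σ k) / u k * x (σ k)
  map_add' x y := by ext k; simp; ring
  map_smul' a x := by ext k; simp; ring

lemma swapMap_apply {m : ℕ} (u : E m) (σ : Equiv.Perm (Fin m)) (x : E m) (k : Fin m) :
    swapMap u σ x k = u (σ k) / u k * x (σ k) := rfl

lemma swapMap_invol {m : ℕ} (u : E m) (hu : ∀ i, u i ≠ 0) (σ : Equiv.Perm (Fin m))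
    (hσ : ∀ k, σ (σ k) = k) (x : E m) : swapMap u σ (swapMap u σ x) = x := by
  ext k
  rw [swapMap_apply, swapMap_apply, hσ]
  have := hu k
  have := hu (σ k)
  field_simp

lemma swapMap_inner {m : ℕ} (u : E m) (hu : ∀ i, u i ≠ 0) (σ : Equiv.Perm (Fin m)) (x : E m) :
    inner ℝ u (swapMap u σ x) = inner ℝ u x := by
  simp only [PiLp.inner_apply, RCLike.inner_apply, conj_trivial, swapMap_apply]
  rw [← Equiv.sum_comp σ (fun k => x k * u k)]
  apply Finset.sum_congr rfl
  intro k _
  have := hu k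
  field_simp

lemma swapMap_Om {m : ℕ} (u : E m) (hu : ∀ i j, 0 < u i * u j) (σ : Equiv.Perm (Fin m)) (x : E m)
    (hx : x ∈ Om m) : swapMap u σ x ∈ Om m := by
  have hu0 : ∀ i, u i ≠ 0 := fun i h => by have := hu i i; rw [h] at this; simp at this
  refine ⟨fun k => ?_, ?_⟩
  · rw [swapMap_apply]
    apply mul_pos _ (hx.1 _)
    have h1 : u (σ k) / u k = (u (σ k) * u k) / (u k) ^ 2 := by
      have := hu0 k
      field_simp
    rw [h1]
    exact div_pos (hu _ _) (by have := hu0 k; positivity)
  · have h1 : ∏ k, swapMap u σ x k = ∏ k, x k := by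
      simp only [swapMap_apply]
      rw [Finset.prod_mul_distrib, Finset.prod_div_distrib, Equiv.prod_comp σ (fun k => u k),
        Equiv.prod_comp σ (fun k => x k), div_self, one_mul]
      exact Finset.prod_ne_zero_iff.mpr fun i _ => hu0 i
    rw [h1]; exact hx.2

/-- The centroid of a hyperplane section is fixed by a linear involution preserving the
hyperplane, a point of it, and the set. -/
lemma cen_fixed {n : ℕ} (M : Submodule ℝ (E (n + 1))) (hM : finrank ℝ M = n)
    (L : E (n + 1) →ₗ[ℝ] E (n + 1)) (hL : ∀ x, L (L x) = x) (hLM : ∀ x ∈ M, L x ∈ M)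
    (x0 : E (n + 1)) (hx0 : L x0 = x0) (S : Set (E (n + 1))) (hSM : ∀ y ∈ S, y - x0 ∈ M)
    (hSm : MeasurableSet S) (hLS : ∀ y ∈ S, L y ∈ S) : L (cen n S) = cen n S := by
  -- the parametrization
  let j : M → E (n + 1) := fun y => x0 + (y : E (n + 1))
  have hj : Isometry j := by
    apply Isometry.of_dist_eq
    intro a b
    simp [j, Subtype.dist_eq]
  have hjr : S ⊆ range j := by
    intro y hy
    exact ⟨⟨y - x0, hSM y hy⟩, by simp [j]⟩
  have hjemb : MeasurableEmbedding j := hj.isClosedEmbedding.measurableEmbedding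
  have hparam : ∫ x in S, x ∂μHE[n] = ∫ y in j ⁻¹' S, j y ∂(μHE[n] : Measure M) := by
    have h1 : (μHE[n] : Measure (E (n + 1))).restrict S =
        ((μHE[n] : Measure (E (n + 1))).restrict (range j)).restrict S := by
      rw [Measure.restrict_restrict hSm, inter_eq_left.mpr hjr]
    rw [h1, ← hj.map_euclideanHausdorffMeasure, hjemb.setIntegral_map]
  -- the restricted involution
  let LM : M →ₗ[ℝ] M := L.restrict hLM
  have hLM2 : ∀ y, LM (LM y) = y := fun y => Subtype.ext (hL y)
  have hdet : LinearMap.det LM * LinearMap.det LM = 1 := by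
    rw [← map_mul]
    have : LM * LM = LinearMap.id := LinearMap.ext fun y => hLM2 y
    rw [this]
    simp
  have hdet0 : LinearMap.det LM ≠ 0 := fun h => by rw [h] at hdet; simp at hdet
  have habs : |(LinearMap.det LM)⁻¹| = 1 := by
    have h1 : |LinearMap.det LM| * |LinearMap.det LM| = 1 := by rw [← abs_mul, hdet, abs_one]
    have h2 : |LinearMap.det LM| = 1 := by
      have h3 : 0 ≤ |LinearMap.det LM| := abs_nonneg _
      nlinarith
    rw [abs_inv, h2, inv_one]
  have hHaar : (μHE[n] : Measure M).IsAddHaarMeasure := by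
    have := isAddHaarMeasure_euclideanHausdorffMeasure (E := M)
    rwa [hM] at this
  have hmp : MeasurePreserving LM (μHE[n] : Measure M) μHE[n] := by
    refine ⟨LM.continuous_of_finiteDimensional.measurable, ?_⟩
    rw [Measure.map_linearMap_addHaar_eq_smul_addHaar _ hdet0, habs]
    simp
  have hLMemb : MeasurableEmbedding LM := by
    let e : M ≃ₗ[ℝ] M := LinearEquiv.ofInvolutive LM hLM2
    exact e.toContinuousLinearEquiv.toHomeomorph.measurableEmbedding
  have hpre : LM ⁻¹' (j ⁻¹' S) = j ⁻¹' S := by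
    have hjL : ∀ y, j (LM y) = L (j y) := by
      intro y
      simp only [j, LM, map_add, hx0]
      rfl
    ext y
    simp only [mem_preimage]
    rw [hjL]
    constructor
    · intro h
      have := hLS _ h
      rwa [hL] at this
    · intro h; exact hLS _ h
  have hinv : L (∫ x in S, x ∂μHE[n]) = ∫ x in S, x ∂μHE[n] := by
    let eL : E (n + 1) ≃L[ℝ] E (n + 1) := (LinearEquiv.ofInvolutive L hL).toContinuousLinearEquiv
    have h1 : L (∫ y in j ⁻¹' S, j y ∂(μHE[n] : Measure M)) =
        ∫ y in j ⁻¹' S, L (j y) ∂(μHE[n] : Measure M) := by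
      have := eL.integral_comp_comm (μ := (μHE[n] : Measure M).restrict (j ⁻¹' S)) j
      exact this.symm
    rw [hparam, h1]
    have h2 : ∀ y, L (j y) = j (LM y) := by
      intro y
      simp only [j, LM, map_add, hx0]
      rfl
    simp only [h2]
    have h3 := hmp.setIntegral_preimage_emb hLMemb j (j ⁻¹' S)
    rw [hpre] at h3
    exact h3
  unfold cen
  rw [map_smul, hinv]

/-- A hyperplane is the orthogonal complement of a nonzero vector. -/
lemma exists_normal {n : ℕ} (M : Submodule ℝ (E (n + 1))) (hM : finrank ℝ M = n) :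
    ∃ u : E (n + 1), u ≠ 0 ∧ ∀ y, y ∈ M ↔ inner ℝ u y = 0 := by
  have h1 : finrank ℝ Mᗮ = 1 := by
    have := M.finrank_add_finrank_orthogonal
    rw [hM, finrank_euclideanSpace, Fintype.card_fin] at this
    omega
  obtain ⟨v, hv0, hv⟩ := finrank_eq_one_iff'.mp h1
  refine ⟨v, by simpa using hv0, fun y => ?_⟩
  constructor
  · intro hy
    rw [real_inner_comm]
    exact (Submodule.mem_orthogonal M v).mp v.2 y hy
  · intro hy
    rw [← M.orthogonal_orthogonal, Submodule.mem_orthogonal]
    intro w hw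
    obtain ⟨c, hc⟩ := hv ⟨w, hw⟩
    have hw' : w = c • (v : E (n + 1)) := by simpa using (congrArg Subtype.val hc).symm
    rw [hw', inner_smul_left, hy, mul_zero]

/-- If all sections parallel to `uᗮ` are bounded then all products `u i * u j` are positive. -/
lemma signs {n : ℕ} (hn : 1 ≤ n) (M : Submodule ℝ (E (n + 1))) (u : E (n + 1))
    (hu : ∀ y, y ∈ M ↔ inner ℝ u y = 0)
    (hb : ∀ x, Bornology.IsBounded (sec M x (Om (n + 1)))) :
    ∀ i j, 0 < u i * u j := by
  -- a nonnegative direction in `M` gives an unbounded section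
  have hdir : ∀ d : E (n + 1), d ∈ M → (∀ k, 0 ≤ d k) → d = 0 := by
    intro d hd hd0
    by_contra hne
    obtain ⟨x, hx⟩ := Om_nonempty (n + 1) (by omega)
    obtain ⟨R, hR⟩ := (hb x).exists_norm_le
    have hmem : ∀ t : ℝ, 0 ≤ t → x + t • d ∈ sec M x (Om (n + 1)) := by
      intro t ht
      refine ⟨by rw [add_sub_cancel_left]; exact M.smul_mem t hd, ?_, ?_⟩
      · intro k
        have h1 := hx.1 k
        have h2 := mul_nonneg ht (hd0 k)
        simp only [PiLp.add_apply, PiLp.smul_apply, smul_eq_mul]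
        linarith
      · refine lt_of_lt_of_le hx.2 (Finset.prod_le_prod (fun k _ => (hx.1 k).le) fun k _ => ?_)
        have h2 := mul_nonneg ht (hd0 k)
        simp only [PiLp.add_apply, PiLp.smul_apply, smul_eq_mul]
        linarith
    have hdn : 0 < ‖d‖ := norm_pos_iff.mpr hne
    have hxR := hR _ (hmem 0 le_rfl)
    rw [zero_smul, add_zero] at hxR
    have hR0 : 0 ≤ R := (norm_nonneg _).trans hxR
    have h1 := hR _ (hmem ((2 * R + 1) / ‖d‖) (by positivity))
    have h2 : ‖((2 * R + 1) / ‖d‖) • d‖ = 2 * R + 1 := by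
      rw [norm_smul, Real.norm_eq_abs, abs_of_pos (by positivity), div_mul_cancel₀ _ hdn.ne']
    have h3 : ‖((2 * R + 1) / ‖d‖) • d‖ ≤ ‖x + ((2 * R + 1) / ‖d‖) • d‖ + ‖x‖ := by
      calc ‖((2 * R + 1) / ‖d‖) • d‖ = ‖(x + ((2 * R + 1) / ‖d‖) • d) - x‖ := by
            rw [add_sub_cancel_left]
        _ ≤ _ := norm_sub_le _ _
    linarith
  have hinner : ∀ (a b : ℝ) (i j : Fin (n + 1)), inner ℝ u
      (a • EuclideanSpace.single i (1 : ℝ) + b • EuclideanSpace.single j (1 : ℝ)) =
      a * u i + b * u j := by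
    intro a b i j
    rw [inner_add_right, inner_smul_right, inner_smul_right]
    simp [EuclideanSpace.inner_single_right]
  have hne0 : ∀ i, u i ≠ 0 := by
    intro i hi
    have h1 := hdir (EuclideanSpace.single i 1) (by
      rw [hu]
      simp [EuclideanSpace.inner_single_right, hi]) (fun k => by
        simp only [PiLp.single_apply]; split_ifs <;> norm_num)
    have h2 := congrArg (fun z : E (n + 1) => z i) h1
    simp at h2
  intro i j
  by_contra hcon
  push Not at hcon
  have hneg : u i * u j < 0 := lt_of_le_of_ne hcon (mul_ne_zero (hne0 i) (hne0 j))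
  have hij : i ≠ j := by
    intro h; subst h; nlinarith [mul_self_nonneg (u i)]
  -- the direction `-(u j) e_i + (u i) e_j` up to sign
  rcases lt_or_gt_of_ne (hne0 i) with h1 | h1
  · have h2 : 0 < u j := by nlinarith
    have h3 := hdir (u j • EuclideanSpace.single i 1 + (-u i) • EuclideanSpace.single j 1) (by
      rw [hu, hinner]; ring) (fun k => by
        simp only [PiLp.add_apply, PiLp.smul_apply, PiLp.single_apply, smul_eq_mul]
        split_ifs <;> nlinarith)
    have h4 := congrArg (fun z : E (n + 1) => z i) h3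
    simp [hij] at h4
    exact hne0 j h4
  · have h2 : u j < 0 := by nlinarith
    have h3 := hdir ((-u j) • EuclideanSpace.single i 1 + u i • EuclideanSpace.single j 1) (by
      rw [hu, hinner]; ring) (fun k => by
        simp only [PiLp.add_apply, PiLp.smul_apply, PiLp.single_apply, smul_eq_mul]
        split_ifs <;> nlinarith)
    have h4 := congrArg (fun z : E (n + 1) => z i) h3
    simp [hij] at h4
    exact hne0 j h4

lemma sccp (n : ℕ) (hn : 1 ≤ n) : SCCP n (Om (n + 1)) := by
  intro M hM hb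
  obtain ⟨u, hu0, hu⟩ := exists_normal M hM
  have hs := signs hn M u hu hb
  have hne : ∀ i, u i ≠ 0 := fun i h => by have := hs i i; rw [h] at this; simp at this
  set d : E (n + 1) := WithLp.toLp 2 fun i => (u i)⁻¹ with hd
  have hdi : ∀ i, d i = (u i)⁻¹ := fun i => rfl
  refine ⟨0, d, ?_, fun x _ => ?_⟩
  · intro h
    have h1 := congrArg (fun z : E (n + 1) => z 0) h
    simp only [hdi] at h1
    exact inv_ne_zero (hne 0) h1
  -- base point of the hyperplane
  set x0 : E (n + 1) := (inner ℝ u x / (n + 1)) • d with hx0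
  have hud : inner ℝ u d = (n : ℝ) + 1 := by
    simp only [PiLp.inner_apply, RCLike.inner_apply, conj_trivial, hdi]
    have : ∀ i, (u i)⁻¹ * u i = 1 := fun i => inv_mul_cancel₀ (hne i)
    simp [this]
  have hxx0 : inner ℝ u x0 = inner ℝ u x := by
    rw [hx0, inner_smul_right, hud]
    have : (n : ℝ) + 1 ≠ 0 := by positivity
    field_simp
  set S := sec M x (Om (n + 1)) with hS
  have hSm : MeasurableSet S := by
    have h1 : S = {y | y - x ∈ M} ∩ Om (n + 1) := by ext; rfl
    rw [h1]
    apply MeasurableSet.inter _ (Om_open _).measurableSet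
    have : IsClosed {y : E (n + 1) | y - x ∈ M} :=
      M.closed_of_finiteDimensional.preimage (by fun_prop : Continuous fun y : E (n + 1) => y - x)
    exact this.measurableSet
  have hfix : ∀ i k, u i * (cen n S) i = u k * (cen n S) k := by
    intro i k
    set σ := Equiv.swap i k with hσ
    have hσσ : ∀ t, σ (σ t) = t := fun t => by rw [hσ]; simp
    have hc := cen_fixed M hM (swapMap u σ) (swapMap_invol u hne σ hσσ)
      (fun y hy => by rw [hu] at hy ⊢; rw [swapMap_inner u hne, hy]) x0
      (by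
        ext t
        rw [swapMap_apply, hx0]
        simp only [PiLp.smul_apply, smul_eq_mul, hdi]
        have := hne t
        have := hne (σ t)
        field_simp) S
      (by
        rintro y ⟨hy, -⟩
        rw [hu] at hy ⊢
        rw [inner_sub_right] at hy ⊢
        rw [hxx0]; exact hy) hSm
      (by
        rintro y ⟨hy1, hy2⟩
        refine ⟨?_, swapMap_Om u hs σ y hy2⟩
        rw [hu] at hy1 ⊢
        rw [inner_sub_right] at hy1 ⊢
        rw [swapMap_inner u hne]; exact hy1)
    have h1 := congrArg (fun z : E (n + 1) => z i) hc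
    simp only [swapMap_apply] at h1
    rw [hσ, Equiv.swap_apply_left] at h1
    rw [← h1]
    have := hne i
    field_simp
  refine ⟨u 0 * (cen n S) 0, ?_⟩
  ext i
  simp only [zero_add, PiLp.smul_apply, smul_eq_mul, hdi]
  rw [hfix 0 i]
  have := hne i
  field_simp

/-- For every `n ≥ 2` the domain `{x ∈ ℝ^{n+1} : x_i > 0, ∏ x_i > 1}` is a nonempty, open, strictly
convex domain with smooth boundary and the section-centroid collinearity property, and its
boundary does not lie on any quadric. -/
theorem result (n : ℕ) (hn : 2 ≤ n) : ∃ Ω : Set (E (n + 1)), Ω.Nonempty ∧ IsOpen Ω ∧ Convex ℝ Ω ∧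
    StrictConvex ℝ (closure Ω) ∧ SmoothBoundary Ω ∧ (frontier Ω).Nonempty ∧ SCCP n Ω ∧
    ¬ LiesOnQuadric (frontier Ω) := by
  refine ⟨Om (n + 1), Om_nonempty _ (by omega), Om_open _, Om_convex _,
    strictConvex_closure _ (by omega), smooth _ (by omega), ?_, sccp n (by omega),
    not_quadric _ (by omega)⟩
  rw [frontier_Om _ (by omega)]
  exact ⟨WithLp.toLp 2 fun _ => 1, fun _ => one_pos, by simp⟩

end Pool.Agent.Results.MP_d39bc3_gt.ProductDomain
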